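import Pool.Agent.W275.UB.Stm2

/-!
# Project UB: ring homomorphisms and the multiplication table
-/

set_option autoImplicit false

namespace Pool.Agent.W500.UB.Tab

open Pool.Agent.W275.UB

theorem main : S_tab := by
  intro O J R _ _ _ ω z
  constructor
  · rintro ⟨h1, h2⟩
    let φ : O →ₗ[ℤ] R := ω.constr ℤ z
    have hφ : ∀ x, φ x = ∑ t, ((ω.repr x t : ℤ) : R) * z t := by
      intro x
      change ω.constr ℤ z x = _
      rw [Module.Basis.constr_apply_fintype]
      refine Finset.sum_congr rfl fun t _ => ?_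
      rw [zsmul_eq_mul]
      rfl
    have hb : ∀ j, φ (ω j) = z j := fun j => Module.Basis.constr_basis ω ℤ z j
    have hB : (LinearMap.mul ℤ O).compr₂ φ = (LinearMap.mul ℤ R).compl₁₂ φ φ := by
      refine LinearMap.ext_basis ω ω fun j l => ?_
      change φ (ω j * ω l) = φ (ω j) * φ (ω l)
      rw [hb, hb, h1, hφ]
    have hmul : ∀ x y, φ (x * y) = φ x * φ y := fun x y =>
      LinearMap.congr_fun (LinearMap.congr_fun hB x) y
    refine ⟨{ toFun := φ, map_one' := by rw [hφ, h2], map_mul' := hmul,
              map_zero' := map_zero φ, map_add' := map_add φ }, fun j => (hb j).symm⟩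
  · rintro ⟨σ, hσ⟩
    have key : ∀ x, ∑ t, ((ω.repr x t : ℤ) : R) * z t = σ x := by
      intro x
      conv_rhs => rw [← ω.sum_repr x]
      rw [map_sum]
      refine Finset.sum_congr rfl fun t _ => ?_
      rw [zsmul_eq_mul, map_mul, map_intCast, hσ]
    refine ⟨fun j l => ?_, ?_⟩
    · rw [key, map_mul, hσ, hσ]
    · rw [key, map_one]

end Pool.Agent.W500.UB.Tab
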